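import Mathlib

/-!
A random graph on the finite subsets of `ℕ` which is invariant under translations, and the
back-and-forth method for coloured graphs.
-/

namespace Pool.Agent.R943.DN

open scoped symmDiff

/-- An enumeration of the finite families of finite sets such that each family occurs infinitely
often. -/
def fam (m : ℕ) : Finset (Finset ℕ) := (Encodable.decode (Nat.unpair m).1).getD ∅

theorem exists_fam (A : Finset (Finset ℕ)) (N : ℕ) : ∃ m, N ≤ m ∧ fam m = A :=
  ⟨Nat.pair (Encodable.encode A) N, Nat.right_le_pair _ _, by simp [fam]⟩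

/-- The set of differences. -/
def S : Set (Finset ℕ) := {F | ∃ m ∈ F, (∀ i ∈ F, i ≤ m) ∧ F.erase m ∈ fam m}

theorem insert_mem_S {F : Finset ℕ} {m : ℕ} (h : ∀ i ∈ F, i < m) :
    insert m F ∈ S ↔ F ∈ fam m := by
  have hm : m ∉ F := fun hm => lt_irrefl _ (h m hm)
  constructor
  · rintro ⟨n, hn, h1, h2⟩
    have h3 : n = m := by
      apply le_antisymm
      · rcases Finset.mem_insert.mp hn with rfl | hn
        · exact le_rfl
        · exact (h n hn).le
      · exact h1 m (Finset.mem_insert_self _ _)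
    subst h3
    rwa [Finset.erase_insert hm] at h2
  · intro h1
    refine ⟨m, Finset.mem_insert_self _ _, fun i hi => ?_, by rwa [Finset.erase_insert hm]⟩
    rcases Finset.mem_insert.mp hi with rfl | hi
    · exact le_rfl
    · exact (h i hi).le

theorem empty_notMem_S : (∅ : Finset ℕ) ∉ S := by
  rintro ⟨m, hm, -⟩
  simp at hm

/-- The random graph on the finite sets. -/
def G : SimpleGraph (Finset ℕ) where
  Adj F H := F ∆ H ∈ S
  symm := ⟨fun F H h => by rwa [symmDiff_comm]⟩
  loopless := ⟨fun F h => empty_notMem_S (by simpa using h)⟩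

theorem adj_iff {F H : Finset ℕ} : G.Adj F H ↔ F ∆ H ∈ S := Iff.rfl

/-- Extension property. -/
theorem ext_prop (A B : Finset (Finset ℕ)) (hAB : Disjoint A B) (σ : Finset ℕ) (k : ℕ) :
    ∃ γ : Finset ℕ, (∀ i < k, i ∈ γ ↔ i ∈ σ) ∧ γ ∉ A ∧ γ ∉ B ∧ (∀ a ∈ A, G.Adj γ a) ∧
      ∀ b ∈ B, ¬ G.Adj γ b := by
  classical
  -- a bound for all elements
  let N := (((A ∪ B).sup id) ∪ σ).sup id + k + 1
  have hN : ∀ F ∈ A ∪ B, ∀ i ∈ F, i < N := by
    intro F hF i hi
    have h1 : i ∈ (A ∪ B).sup id := (Finset.le_sup (f := id) hF : F ≤ _) hi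
    have h2 : i ≤ (((A ∪ B).sup id) ∪ σ).sup id :=
      Finset.le_sup (f := id) (Finset.mem_union_left _ h1)
    omega
  have hσ : ∀ i ∈ σ, i < N := by
    intro i hi
    have h2 : i ≤ (((A ∪ B).sup id) ∪ σ).sup id :=
      Finset.le_sup (f := id) (Finset.mem_union_right _ hi)
    omega
  obtain ⟨m, hm, hfam⟩ := exists_fam (A.image fun a => σ ∆ a) N
  have hmN : ∀ F ∈ A ∪ B, m ∉ F := fun F hF h => absurd (hN F hF m h) (by omega)
  have hmσ : m ∉ σ := fun h => absurd (hσ m h) (by omega)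
  have key : ∀ F ∈ A ∪ B, (G.Adj (insert m σ) F ↔ F ∈ A) := by
    intro F hF
    have h1 : (insert m σ) ∆ F = insert m (σ ∆ F) := by
      ext i
      have := hmN F hF
      simp only [Finset.mem_symmDiff, Finset.mem_insert]
      by_cases hi : i = m
      · subst hi; simp [this]
      · simp [hi]
    rw [adj_iff, h1, insert_mem_S, hfam]
    · constructor
      · intro h
        obtain ⟨a, ha, h2⟩ := Finset.mem_image.mp h
        have : a = F := symmDiff_right_injective σ h2
        exact this ▸ ha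
      · intro h
        exact Finset.mem_image_of_mem _ h
    · intro i hi
      rw [Finset.mem_symmDiff] at hi
      rcases hi with hi | hi
      · exact lt_of_lt_of_le (hσ i hi.1) hm
      · exact lt_of_lt_of_le (hN F hF i hi.1) hm
  refine ⟨insert m σ, ?_, ?_, ?_, ?_, ?_⟩
  · intro i hi
    have : i ≠ m := by omega
    simp [this]
  · intro h
    exact hmN _ (Finset.mem_union_left _ h) (Finset.mem_insert_self _ _)
  · intro h
    exact hmN _ (Finset.mem_union_right _ h) (Finset.mem_insert_self _ _)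
  · intro a ha
    exact (key a (Finset.mem_union_left _ ha)).mpr ha
  · intro b hb h
    exact Finset.disjoint_left.mp hAB ((key b (Finset.mem_union_right _ hb)).mp h) hb

/-! ### Back and forth -/

section BF

variable {V I : Type} (Γ : SimpleGraph V) (col : V → I)

/-- The extension property for coloured graphs. -/
def Ext : Prop := ∀ A B : Finset V, Disjoint A B → ∀ v : V, ∃ z, z ∉ A ∧ z ∉ B ∧
  (∀ a ∈ A, Γ.Adj z a) ∧ (∀ b ∈ B, ¬ Γ.Adj z b) ∧ col z = col v

/-- Finite partial isomorphisms. -/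
def PI (p : Finset (V × V)) : Prop :=
  (∀ x ∈ p, ∀ y ∈ p, (x.1 = y.1 ↔ x.2 = y.2) ∧ (Γ.Adj x.1 y.1 ↔ Γ.Adj x.2 y.2)) ∧
    ∀ x ∈ p, col x.1 = col x.2

variable {Γ col}

theorem PI.swap [DecidableEq V] {p : Finset (V × V)} (h : PI Γ col p) :
    PI Γ col (p.image Prod.swap) := by
  constructor
  · intro x hx y hy
    obtain ⟨x', hx', rfl⟩ := Finset.mem_image.mp hx
    obtain ⟨y', hy', rfl⟩ := Finset.mem_image.mp hy
    exact ⟨(h.1 x' hx' y' hy').1.symm, (h.1 x' hx' y' hy').2.symm⟩
  · intro x hx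
    obtain ⟨x', hx', rfl⟩ := Finset.mem_image.mp hx
    exact (h.2 x' hx').symm

theorem PI.extend [DecidableEq V] (hE : Ext Γ col) {p : Finset (V × V)} (h : PI Γ col p) (v : V) :
    ∃ w, PI Γ col (insert (v, w) p) := by
  classical
  by_cases hv : ∃ x ∈ p, x.1 = v
  · obtain ⟨x, hx, rfl⟩ := hv
    refine ⟨x.2, ?_⟩
    rw [Finset.insert_eq_of_mem (by exact hx)]
    exact h
  · push Not at hv
    let A := (p.filter fun x => Γ.Adj v x.1).image Prod.snd
    let B := (p.filter fun x => ¬ Γ.Adj v x.1).image Prod.snd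
    have hAB : Disjoint A B := by
      rw [Finset.disjoint_left]
      intro z hz hz'
      obtain ⟨x, hx, rfl⟩ := Finset.mem_image.mp hz
      obtain ⟨y, hy, hxy⟩ := Finset.mem_image.mp hz'
      rw [Finset.mem_filter] at hx hy
      have := ((h.1 y hy.1 x hx.1).1).mpr hxy
      exact hy.2 (this ▸ hx.2)
    obtain ⟨z, hzA, hzB, h1, h2, h3⟩ := hE A B hAB v
    have hz : ∀ x ∈ p, x.2 ≠ z := by
      rintro x hx rfl
      by_cases hvx : Γ.Adj v x.1
      · exact hzA (Finset.mem_image_of_mem _ (Finset.mem_filter.mpr ⟨hx, hvx⟩))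
      · exact hzB (Finset.mem_image_of_mem _ (Finset.mem_filter.mpr ⟨hx, hvx⟩))
    have hadj : ∀ x ∈ p, (Γ.Adj v x.1 ↔ Γ.Adj z x.2) := by
      intro x hx
      by_cases hvx : Γ.Adj v x.1
      · exact iff_of_true hvx (h1 _ (Finset.mem_image_of_mem _ (Finset.mem_filter.mpr ⟨hx, hvx⟩)))
      · exact iff_of_false hvx
          (h2 _ (Finset.mem_image_of_mem _ (Finset.mem_filter.mpr ⟨hx, hvx⟩)))
    refine ⟨z, ?_, ?_⟩
    · intro x hx y hy
      rcases Finset.mem_insert.mp hx with rfl | hx <;> rcases Finset.mem_insert.mp hy with rfl | hy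
      · simp
      · exact ⟨iff_of_false (fun e => hv y hy e.symm) (fun e => hz y hy e.symm), hadj y hy⟩
      · exact ⟨iff_of_false (fun e => hv x hx e) (fun e => hz x hx e), by
          rw [Γ.adj_comm, Γ.adj_comm x.2]; exact hadj x hx⟩
      · exact h.1 x hx y hy
    · intro x hx
      rcases Finset.mem_insert.mp hx with rfl | hx
      · exact h3.symm
      · exact h.2 x hx

theorem PI.extend' [DecidableEq V] (hE : Ext Γ col) {p : Finset (V × V)} (h : PI Γ col p) (w : V) :
    ∃ v, PI Γ col (insert (v, w) p) := by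
  obtain ⟨v, hv⟩ := h.swap.extend hE w
  refine ⟨v, ?_⟩
  have := hv.swap
  rwa [Finset.image_insert, Finset.image_image, Prod.swap_swap_eq, Finset.image_id] at this

/-- Back and forth. -/
theorem exists_iso [Countable V] (hE : Ext Γ col) {v w : V} (hvw : col v = col w) :
    ∃ φ : Γ ≃g Γ, φ v = w ∧ ∀ u, col (φ u) = col u := by
  classical
  have : Nonempty V := ⟨v⟩
  obtain ⟨e, he⟩ := exists_surjective_nat V
  -- one step
  have step : ∀ (p : {p : Finset (V × V) // PI Γ col p}) (n : ℕ),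
      ∃ q : {p : Finset (V × V) // PI Γ col p}, p.1 ⊆ q.1 ∧ (∃ y, (e n, y) ∈ q.1) ∧
        ∃ x, (x, e n) ∈ q.1 := by
    intro p n
    obtain ⟨y, hy⟩ := p.2.extend hE (e n)
    obtain ⟨x, hx⟩ := hy.extend' hE (e n)
    refine ⟨⟨_, hx⟩, ?_, ⟨y, ?_⟩, ⟨x, ?_⟩⟩
    · exact (Finset.subset_insert _ _).trans (Finset.subset_insert _ _)
    · exact Finset.mem_insert_of_mem (Finset.mem_insert_self _ _)
    · exact Finset.mem_insert_self _ _
  choose q hq1 hq2 hq3 using step
  have h0 : PI Γ col {(v, w)} := by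
    constructor
    · intro x hx y hy
      rw [Finset.mem_singleton] at hx hy
      subst hx; subst hy; simp
    · intro x hx
      rw [Finset.mem_singleton] at hx
      subst hx; exact hvw
  let P : ℕ → {p : Finset (V × V) // PI Γ col p} := fun n => Nat.rec ⟨_, h0⟩ (fun n p => q p n) n
  have hP : ∀ n, P (n + 1) = q (P n) n := fun n => rfl
  have hmono : Monotone fun n => (P n).1 := monotone_nat_of_le_succ fun n => by
    rw [hP]; exact hq1 _ _
  have hdom : ∀ u, ∃ y, ∃ n, (u, y) ∈ (P n).1 := by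
    intro u
    obtain ⟨n, rfl⟩ := he u
    obtain ⟨y, hy⟩ := hq2 (P n) n
    exact ⟨y, n + 1, by rw [hP]; exact hy⟩
  have hran : ∀ u, ∃ x, ∃ n, (x, u) ∈ (P n).1 := by
    intro u
    obtain ⟨n, rfl⟩ := he u
    obtain ⟨x, hx⟩ := hq3 (P n) n
    exact ⟨x, n + 1, by rw [hP]; exact hx⟩
  have hcomp : ∀ x y : V × V, (∃ n, x ∈ (P n).1) → (∃ n, y ∈ (P n).1) →
      (x.1 = y.1 ↔ x.2 = y.2) ∧ (Γ.Adj x.1 y.1 ↔ Γ.Adj x.2 y.2) := by
    rintro x y ⟨n, hn⟩ ⟨m, hm⟩
    exact (P (max n m)).2.1 x (hmono (le_max_left _ _) hn) y (hmono (le_max_right _ _) hm)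
  choose f hf using hdom
  choose g hg using hran
  let E : V ≃ V :=
    { toFun := f
      invFun := g
      left_inv := fun u => ((hcomp (g (f u), f u) (u, f u) (hg _) (hf _)).1).mpr rfl
      right_inv := fun u => ((hcomp (g u, f (g u)) (g u, u) (hf _) (hg _)).1).mp rfl }
  refine ⟨⟨E, fun {a b} => ?_⟩, ?_, ?_⟩
  · exact ((hcomp (a, f a) (b, f b) (hf _) (hf _)).2).symm
  · exact ((hcomp (v, f v) (v, w) (hf _) ⟨0, Finset.mem_singleton_self _⟩).1).mp rfl
  · intro u
    obtain ⟨n, hn⟩ := hf u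
    exact ((P n).2.2 _ hn).symm

end BF

end Pool.Agent.R943.DN
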