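import Pool.Agent.R943.DN.Rado

/-!
Rigid colourings of the random graph with five colours.
-/

namespace Pool.Agent.R943.DN

open scoped symmDiff

/-- A simple form of the extension property. -/
theorem ext_simple (A B : Finset (Finset ℕ)) (hAB : Disjoint A B) :
    ∃ γ : Finset ℕ, γ ∉ A ∧ γ ∉ B ∧ (∀ a ∈ A, G.Adj γ a) ∧ ∀ b ∈ B, ¬ G.Adj γ b := by
  obtain ⟨γ, -, h⟩ := ext_prop A B hAB ∅ 0
  exact ⟨γ, h⟩

/-- A pair enumeration. -/
theorem exists_pairs : ∃ e : ℕ → Finset ℕ × Finset ℕ, Function.Surjective e :=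
  exists_surjective_nat _

/-- The enumeration of the pairs. -/
noncomputable def pr : ℕ → Finset ℕ × Finset ℕ := exists_pairs.choose

theorem pr_surj : Function.Surjective pr := exists_pairs.choose_spec

/-- A step of the construction of the ray: `L` is the list of the vertices which have been chosen
(in reverse order). -/
theorem step (L : List (Finset ℕ)) (v : Finset ℕ) (hv : v ∉ L) (n : ℕ) : ∃ w : Finset ℕ,
    w ∉ v :: L ∧ G.Adj w v ∧ (∀ u ∈ L, ¬ G.Adj w u) ∧
    ((pr n).1 ≠ (pr n).2 → (pr n).1 ∉ v :: L → (pr n).2 ∉ v :: L →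
      G.Adj w (pr n).1 ∧ ¬ G.Adj w (pr n).2) := by
  classical
  by_cases h : (pr n).1 ≠ (pr n).2 ∧ (pr n).1 ∉ v :: L ∧ (pr n).2 ∉ v :: L
  · obtain ⟨h1, h2, h3⟩ := h
    rw [List.mem_cons, not_or] at h2 h3
    obtain ⟨w, hA, hB, h4, h5⟩ := ext_simple {v, (pr n).1} (L.toFinset ∪ {(pr n).2}) (by
      rw [Finset.disjoint_left]
      intro x hx hx'
      simp only [Finset.mem_insert, Finset.mem_singleton, Finset.mem_union,
        List.mem_toFinset] at hx hx'
      rcases hx with rfl | rfl <;> rcases hx' with hx' | hx'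
      · exact hv hx'
      · exact h3.1 hx'.symm
      · exact h2.2 hx'
      · exact h1 hx')
    refine ⟨w, ?_, h4 v (by simp), fun u hu => h5 u (by simp [hu]), fun _ _ _ =>
      ⟨h4 _ (by simp), h5 _ (by simp)⟩⟩
    rw [List.mem_cons, not_or]
    exact ⟨fun e => hA (by simp [e]), fun e => hB (by simp [e])⟩
  · obtain ⟨w, hA, hB, h4, h5⟩ := ext_simple {v} L.toFinset (by
      rw [Finset.disjoint_left]
      intro x hx hx'
      rw [Finset.mem_singleton] at hx
      subst hx
      exact hv (List.mem_toFinset.mp hx'))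
    refine ⟨w, ?_, h4 v (by simp), fun u hu => h5 u (by simp [hu]), fun h1 h2 h3 =>
      absurd ⟨h1, h2, h3⟩ h⟩
    rw [List.mem_cons, not_or]
    exact ⟨fun e => hA (by simp [e]), fun e => hB (by simp [e])⟩

/-- There is an induced ray which separates the vertices outside of it. -/
theorem exists_ray : ∃ v : ℕ → Finset ℕ, Function.Injective v ∧
    (∀ i j, G.Adj (v i) (v j) → i = j + 1 ∨ j = i + 1) ∧ (∀ i, G.Adj (v (i + 1)) (v i)) ∧
    ∀ y z, y ≠ z → y ∉ Set.range v → z ∉ Set.range v → ∃ n, G.Adj (v n) y ∧ ¬ G.Adj (v n) z := by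
  classical
  -- states: a list `L` and a further vertex
  let St := {s : List (Finset ℕ) × Finset ℕ // s.2 ∉ s.1}
  have hst : ∀ (s : St) (n : ℕ), ∃ w : Finset ℕ, w ∉ s.1.2 :: s.1.1 ∧ G.Adj w s.1.2 ∧
      (∀ u ∈ s.1.1, ¬ G.Adj w u) ∧
      ((pr n).1 ≠ (pr n).2 → (pr n).1 ∉ s.1.2 :: s.1.1 → (pr n).2 ∉ s.1.2 :: s.1.1 →
        G.Adj w (pr n).1 ∧ ¬ G.Adj w (pr n).2) := fun s n => step s.1.1 s.1.2 s.2 n
  choose nx h1 h2 h3 h4 using hst
  let T : ℕ → St := fun n => Nat.rec ⟨([], ∅), by simp⟩
    (fun n s => ⟨(s.1.2 :: s.1.1, nx s n), h1 s n⟩) n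
  have hT : ∀ n, T (n + 1) = ⟨((T n).1.2 :: (T n).1.1, nx (T n) n), h1 (T n) n⟩ := fun n => rfl
  let v : ℕ → Finset ℕ := fun n => (T n).1.2
  have hv1 : ∀ n, v (n + 1) = nx (T n) n := fun n => rfl
  have hL : ∀ n u, u ∈ (T n).1.1 ↔ ∃ i < n, v i = u := by
    intro n
    induction n with
    | zero =>
      intro u
      simp only [Nat.not_lt_zero, false_and, exists_false, iff_false]
      exact List.not_mem_nil
    | succ n ih =>
      intro u
      rw [hT]
      show u ∈ (T n).1.2 :: (T n).1.1 ↔ _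
      rw [List.mem_cons, ih u]
      constructor
      · rintro (h | ⟨i, hi, h⟩)
        · exact ⟨n, Nat.lt_succ_self n, h.symm⟩
        · exact ⟨i, hi.trans (Nat.lt_succ_self n), h⟩
      · rintro ⟨i, hi, h⟩
        rcases Nat.lt_succ_iff_lt_or_eq.mp hi with hi | rfl
        · exact Or.inr ⟨i, hi, h⟩
        · exact Or.inl h.symm
  have hnew : ∀ n i, i ≤ n → v (n + 1) ≠ v i := by
    intro n i hi he
    have h := h1 (T n) n
    rw [← hv1, List.mem_cons, not_or] at h
    rcases Nat.lt_or_eq_of_le hi with hi | rfl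
    · exact h.2 ((hL n _).mpr ⟨i, hi, he.symm⟩)
    · exact h.1 he
  have hinj : Function.Injective v := by
    have key : ∀ i j, i < j → v i ≠ v j := by
      intro i j hij he
      obtain ⟨k, rfl⟩ : ∃ k, j = k + 1 := ⟨j - 1, by omega⟩
      exact hnew k i (by omega) he.symm
    intro i j he
    rcases lt_trichotomy i j with h | h | h
    · exact absurd he (key i j h)
    · exact h
    · exact absurd he.symm (key j i h)
  have hfar : ∀ i j, i < j → G.Adj (v j) (v i) → j = i + 1 := by
    intro i j hij hadj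
    obtain ⟨k, rfl⟩ : ∃ k, j = k + 1 := ⟨j - 1, by omega⟩
    by_contra hne
    exact h3 (T k) k (v i) ((hL k _).mpr ⟨i, by omega, rfl⟩) hadj
  refine ⟨v, hinj, ?_, fun i => h2 (T i) i, ?_⟩
  · intro i j hadj
    rcases lt_trichotomy i j with h | h | h
    · exact Or.inr (hfar i j h hadj.symm)
    · subst h
      exact absurd rfl hadj.ne
    · exact Or.inl (hfar j i h hadj)
  · intro y z hyz hy hz
    obtain ⟨n, hn⟩ := pr_surj (y, z)
    have hnot : ∀ u, u ∉ Set.range v → u ∉ (T n).1.2 :: (T n).1.1 := by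
      intro u hu h
      rcases List.mem_cons.mp h with h | h
      · exact hu ⟨n, h.symm⟩
      · obtain ⟨i, -, hi⟩ := (hL n u).mp h
        exact hu ⟨i, hi⟩
    have h5 := h4 (T n) n (by rw [hn]; exact hyz) (by rw [hn]; exact hnot y hy)
      (by rw [hn]; exact hnot z hz)
    rw [hn] at h5
    exact ⟨n + 1, h5⟩

/-- The ray. -/
noncomputable def ray : ℕ → Finset ℕ := exists_ray.choose

theorem ray_inj : Function.Injective ray := exists_ray.choose_spec.1

theorem ray_far (i j : ℕ) (h : G.Adj (ray i) (ray j)) : i = j + 1 ∨ j = i + 1 :=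
  exists_ray.choose_spec.2.1 i j h

theorem ray_adj (i : ℕ) : G.Adj (ray (i + 1)) (ray i) := exists_ray.choose_spec.2.2.1 i

theorem ray_sep (y z : Finset ℕ) (h : y ≠ z) (hy : y ∉ Set.range ray) (hz : z ∉ Set.range ray) :
    ∃ n, G.Adj (ray n) y ∧ ¬ G.Adj (ray n) z := exists_ray.choose_spec.2.2.2 y z h hy hz

open Classical in
/-- The rigid colouring which belongs to the sequence `x`. -/
noncomputable def kap (x : ℕ → Bool) (F : Finset ℕ) : Fin 5 :=
  if h : F ∈ Set.range ray then
    (if h.choose = 0 then (if x h.choose then 0 else 1) else (if x h.choose then 2 else 3))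
  else 4

theorem kap_zero (x : ℕ → Bool) : kap x (ray 0) = if x 0 then 0 else 1 := by
  have h : ray 0 ∈ Set.range ray := ⟨0, rfl⟩
  have h1 : h.choose = 0 := ray_inj h.choose_spec
  unfold kap
  rw [dif_pos h, if_pos h1, h1]

theorem kap_succ (x : ℕ → Bool) (n : ℕ) : kap x (ray (n + 1)) = if x (n + 1) then 2 else 3 := by
  have h : ray (n + 1) ∈ Set.range ray := ⟨n + 1, rfl⟩
  have h1 : h.choose = n + 1 := ray_inj h.choose_spec
  unfold kap
  rw [dif_pos h, if_neg (by rw [h1]; exact Nat.succ_ne_zero n), h1]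

theorem kap_notMem (x : ℕ → Bool) {F : Finset ℕ} (h : F ∉ Set.range ray) : kap x F = 4 := by
  unfold kap
  rw [dif_neg h]

theorem eq_ray_zero (x : ℕ → Bool) {F : Finset ℕ} (h : kap x F = 0 ∨ kap x F = 1) :
    F = ray 0 := by
  by_cases hF : F ∈ Set.range ray
  · obtain ⟨n, rfl⟩ := hF
    cases n with
    | zero => rfl
    | succ n =>
      rw [kap_succ] at h
      exfalso
      generalize x (n + 1) = b at h
      cases b <;> revert h <;> decide
  · rw [kap_notMem x hF] at h
    exfalso
    revert h; decide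

theorem exists_ray_succ (x : ℕ → Bool) {F : Finset ℕ} (h : kap x F = 2 ∨ kap x F = 3) :
    ∃ n, F = ray (n + 1) := by
  by_cases hF : F ∈ Set.range ray
  · obtain ⟨n, rfl⟩ := hF
    cases n with
    | zero =>
      rw [kap_zero] at h
      exfalso
      generalize x 0 = b at h
      cases b <;> revert h <;> decide
    | succ n => exact ⟨n, rfl⟩
  · rw [kap_notMem x hF] at h
    exfalso
    revert h; decide

/-- The colourings are rigid and pairwise non-isomorphic. -/
theorem rigid {x x' : ℕ → Bool} {ψ : Finset ℕ → Finset ℕ} (hi : Function.Injective ψ)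
    (hadj : ∀ F H, G.Adj F H → G.Adj (ψ F) (ψ H)) (hk : ∀ F, kap x' (ψ F) = kap x F) :
    x = x' ∧ ∀ F, ψ F = F := by
  have h0 : ψ (ray 0) = ray 0 := by
    apply eq_ray_zero x'
    rw [hk, kap_zero]
    cases x 0 <;> simp
  have hray : ∀ n, ψ (ray n) = ray n := by
    intro n
    induction n using Nat.strong_induction_on with
    | _ n ih =>
      cases n with
      | zero => exact h0
      | succ n =>
        obtain ⟨m, hm⟩ := exists_ray_succ x' (F := ψ (ray (n + 1))) (by
          rw [hk, kap_succ]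
          cases x (n + 1) <;> simp)
        have h1 := hadj _ _ (ray_adj n)
        rw [ih n (Nat.lt_succ_self n), hm] at h1
        rcases ray_far _ _ h1 with h2 | h2
        · rw [hm, h2]
        · exfalso
          have h3 : m + 1 < n + 1 := by omega
          have h4 : ψ (ray (m + 1)) = ψ (ray (n + 1)) := (ih (m + 1) h3).trans hm.symm
          have := ray_inj (hi h4)
          omega
  have hx : x = x' := by
    funext n
    have h1 := hk (ray n)
    rw [hray] at h1
    cases n with
    | zero =>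
      rw [kap_zero, kap_zero] at h1
      revert h1
      cases x 0 <;> cases x' 0 <;> simp
    | succ n =>
      rw [kap_succ, kap_succ] at h1
      revert h1
      cases x (n + 1) <;> cases x' (n + 1) <;> simp
  refine ⟨hx, fun F => ?_⟩
  by_cases hF : F ∈ Set.range ray
  · obtain ⟨n, rfl⟩ := hF
    exact hray n
  · have hF' : ψ F ∉ Set.range ray := by
      rintro ⟨n, hn⟩
      apply hF
      have h1 : ψ (ray n) = ψ F := by rw [hray]; exact hn
      exact ⟨n, hi h1⟩
    by_contra hne
    obtain ⟨n, h1, h2⟩ := ray_sep F (ψ F) (fun e => hne e.symm) hF hF'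
    have h3 := hadj _ _ h1
    rw [hray] at h3
    exact h2 h3

end Pool.Agent.R943.DN
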